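import Pool.Agent.J4H69.K1.Stm
import Pool.Agent.BezHen.Gauss

/-!
# Project K1: `COM`
-/

set_option autoImplicit false

open MvPolynomial Pool.Agent.J4H69.K1

namespace Pool.Agent.J4H17.K1

/-- polynomials without common factor: their ideal meets the coefficient ring -/
theorem elim {S : Type} [CommRing S] [IsDomain S] [UniqueFactorizationMonoid S]
    (f : ℕ → Polynomial S) (hf : ∀ p : Polynomial S, (∀ l, p ∣ f l) → IsUnit p)
    (hne : ∃ l, f l ≠ 0) :
    ∃ e : S, e ≠ 0 ∧ Polynomial.C e ∈ Ideal.span (Set.range f) := by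
  by_contra hcon
  push Not at hcon
  have hdisj : Disjoint (Ideal.span (Set.range f) : Set (Polynomial S))
      ((nonZeroDivisors S).map (Polynomial.C : S →+* Polynomial S) : Set (Polynomial S)) := by
    rw [Set.disjoint_left]
    rintro x hx ⟨e, he, rfl⟩
    exact hcon e (nonZeroDivisors.ne_zero he) hx
  obtain ⟨P, hP, hJP, hPd⟩ := Ideal.exists_le_prime_disjoint _ _ hdisj
  have hbot : P ≠ ⊥ := by
    obtain ⟨l, hl⟩ := hne
    intro h
    apply hl
    have : f l ∈ P := hJP (Ideal.subset_span ⟨l, rfl⟩)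
    rw [h] at this
    exact this
  obtain ⟨p, hpP, hp⟩ := Ideal.IsPrime.exists_mem_prime_of_ne_bot hP hbot
  have hdom : IsDomain (Polynomial S ⧸ P) := Ideal.Quotient.isDomain P
  let F := FractionRing (Polynomial S ⧸ P)
  let θ : Polynomial S →+* F := (algebraMap (Polynomial S ⧸ P) F).comp (Ideal.Quotient.mk P)
  have hθ : ∀ q : Polynomial S, θ q = 0 ↔ q ∈ P := by
    intro q
    rw [← Ideal.Quotient.eq_zero_iff_mem]
    constructor
    · intro h
      exact (IsFractionRing.injective (Polynomial S ⧸ P) F) (by rw [map_zero]; exact h)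
    · intro h
      change algebraMap (Polynomial S ⧸ P) F (Ideal.Quotient.mk P q) = 0
      rw [h, map_zero]
  have hφ : Function.Injective (θ.comp (Polynomial.C : S →+* Polynomial S)) := by
    rw [injective_iff_map_eq_zero]
    intro e he
    by_contra h0
    have h1 : Polynomial.C e ∈ P := (hθ _).1 he
    exact Set.disjoint_left.1 hPd h1 ⟨e, mem_nonZeroDivisors_of_ne_zero h0, rfl⟩
  have hev : ∀ q : Polynomial S,
      q.eval₂ (θ.comp (Polynomial.C : S →+* Polynomial S)) (θ Polynomial.X) = θ q := by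
    intro q
    rw [← Polynomial.hom_eval₂, Polynomial.eval₂_C_X]
  have hall : ∀ q ∈ P, p ∣ q := by
    intro q hq
    by_contra hnd
    have hrel : IsRelPrime p q := (hp.irreducible.isRelPrime_iff_not_dvd).2 hnd
    exact Pool.Agent.BezHen.gauss _ hφ (θ Polynomial.X) p q hrel
      (by rw [hev]; exact (hθ p).2 hpP) (by rw [hev]; exact (hθ q).2 hq)
  exact hp.not_unit (hf p fun l => hall _ (hJP (Ideal.subset_span ⟨l, rfl⟩)))

/-- the zeros of a polynomial in one variable -/
theorem zeros_finite (e : MvPolynomial (Fin 1) ℂ) (he : e ≠ 0) :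
    {a : ℂ | MvPolynomial.eval (Fin.cons a Fin.elim0 : Fin 1 → ℂ) e = 0}.Finite := by
  have hinj : Function.Injective (MvPolynomial.eval (Fin.elim0 : Fin 0 → ℂ)) := by
    have : ∀ p : MvPolynomial (Fin 0) ℂ, p = MvPolynomial.C (MvPolynomial.eval Fin.elim0 p) := by
      intro p
      obtain ⟨c, rfl⟩ := MvPolynomial.C_surjective (Fin 0) p
      simp
    intro p q hpq
    rw [this p, this q, hpq]
  set g : Polynomial ℂ := Polynomial.map (MvPolynomial.eval (Fin.elim0 : Fin 0 → ℂ))
    (MvPolynomial.finSuccEquiv ℂ 0 e) with hg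
  have hg0 : g ≠ 0 := by
    rw [hg, Polynomial.map_ne_zero_iff hinj]
    intro h
    exact he ((MvPolynomial.finSuccEquiv ℂ 0).injective (by rw [h, map_zero]))
  have : {a : ℂ | MvPolynomial.eval (Fin.cons a Fin.elim0 : Fin 1 → ℂ) e = 0} =
      {a : ℂ | Polynomial.eval a g = 0} := by
    ext a
    simp only [Set.mem_setOf_eq]
    rw [MvPolynomial.eval_eq_eval_mv_eval']
  rw [this]
  refine Set.Finite.subset (g.roots.toFinset.finite_toSet) ?_
  intro a ha
  simp only [Finset.mem_coe, Multiset.mem_toFinset]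
  exact (Polynomial.mem_roots hg0).2 ha

theorem exists_perm : ∀ i k : Fin 3, i ≠ k → ∃ σ : Equiv.Perm (Fin 3), σ k = 0 ∧ σ i = 2 := by
  decide

theorem t_COM : S_COM := by
  intro Q i k hik hirr hdeg
  obtain ⟨σ, hk, hi⟩ := exists_perm i k hik
  -- the polynomial in `z k`
  set E1 : MvPolynomial (Fin 3) ℂ ≃ₐ[ℂ] Polynomial (MvPolynomial (Fin 2) ℂ) :=
    (MvPolynomial.renameEquiv ℂ σ).trans (MvPolynomial.finSuccEquiv ℂ 2) with hE1
  set E2 : MvPolynomial (Fin 2) ℂ ≃ₐ[ℂ] Polynomial (MvPolynomial (Fin 1) ℂ) :=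
    MvPolynomial.finSuccEquiv ℂ 1 with hE2
  have hE1Q : E1 Q = MvPolynomial.finSuccEquiv ℂ 2 (MvPolynomial.rename σ Q) := rfl
  have hirr1 : Irreducible (E1 Q) := (MulEquiv.irreducible_iff E1).2 hirr
  have hdeg1 : (E1 Q).natDegree ≠ 0 := by
    rw [hE1Q, MvPolynomial.natDegree_finSuccEquiv, ← hk,
      MvPolynomial.degreeOf_rename_of_injective σ.injective]
    exact hdeg
  obtain ⟨e, he0, heJ⟩ := elim (fun l => E2 ((E1 Q).coeff l))
    (by
      intro p hp
      have h1 : Polynomial.C (E2.symm p) ∣ E1 Q := by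
        rw [Polynomial.C_dvd_iff_dvd_coeff]
        intro l
        obtain ⟨r, hr⟩ := hp l
        refine ⟨E2.symm r, ?_⟩
        rw [← map_mul, ← hr, AlgEquiv.symm_apply_apply]
      obtain ⟨r, hr⟩ := h1
      rcases hirr1.isUnit_or_isUnit hr with h | h
      · have h2 : IsUnit (E2.symm p) := Polynomial.isUnit_C.1 h
        have h3 := h2.map E2
        rwa [AlgEquiv.apply_symm_apply] at h3
      · exfalso
        apply hdeg1
        have hne : E1 Q ≠ 0 := hirr1.ne_zero
        rw [hr] at hne ⊢
        rw [Polynomial.natDegree_mul (left_ne_zero_of_mul hne) (right_ne_zero_of_mul hne),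
          Polynomial.natDegree_C, Polynomial.natDegree_eq_zero_of_isUnit h])
    (by
      refine ⟨(E1 Q).natDegree, ?_⟩
      intro h
      have h1 : (E1 Q).coeff (E1 Q).natDegree = 0 := E2.injective (by rw [map_zero]; exact h)
      exact hirr1.ne_zero (Polynomial.leadingCoeff_eq_zero.1 h1))
  refine Set.Countable.mono ?_ (zeros_finite e he0).countable
  rintro a ⟨z, rfl, hz⟩
  simp only [Set.mem_setOf_eq]
  -- the point
  set s1 : Fin 1 → ℂ := Fin.cons (z i) Fin.elim0 with hs1
  set s2 : Fin 2 → ℂ := Fin.cons (z (σ.symm 1)) s1 with hs2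
  have hupd : ∀ c : ℂ, Function.update z k c = (Fin.cons c s2 : Fin 3 → ℂ) ∘ σ := by
    intro c
    funext l
    have hs : σ.symm 0 = k := by rw [← hk, Equiv.symm_apply_apply]
    have hs' : σ.symm 2 = i := by rw [← hi, Equiv.symm_apply_apply]
    obtain ⟨t, ht⟩ : ∃ t, t = σ l := ⟨_, rfl⟩
    have hl : l = σ.symm t := by rw [ht, Equiv.symm_apply_apply]
    rw [Function.comp_apply, ← ht]
    fin_cases t
    · simp only [Fin.zero_eta] at hl ⊢
      rw [hl, hs, Function.update_self]
      rfl
    · simp only [Fin.mk_one] at hl ⊢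
      have hne : l ≠ k := by
        rw [hl, ← hs]
        intro h
        have := σ.symm.injective h
        exact absurd this (by decide)
      rw [Function.update_of_ne hne, hl]
      rfl
    · simp only [Fin.reduceFinMk] at hl ⊢
      have hne : l ≠ k := by
        rw [hl, ← hs]
        intro h
        have := σ.symm.injective h
        exact absurd this (by decide)
      rw [Function.update_of_ne hne, hl, hs']
      rfl
  have hz1 : ∀ c : ℂ, Polynomial.eval c (Polynomial.map (MvPolynomial.eval s2) (E1 Q)) = 0 := by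
    intro c
    have := hz c
    rw [hupd, ← MvPolynomial.eval_rename, MvPolynomial.eval_eq_eval_mv_eval'] at this
    exact this
  have hz2 : Polynomial.map (MvPolynomial.eval s2) (E1 Q) = 0 :=
    Polynomial.funext fun c => by rw [hz1 c, Polynomial.eval_zero]
  have hz3 : ∀ l, MvPolynomial.eval s2 ((E1 Q).coeff l) = 0 := by
    intro l
    have := congrArg (fun p => Polynomial.coeff p l) hz2
    simpa [Polynomial.coeff_map] using this
  -- the evaluation kills the ideal
  set ev : Polynomial (MvPolynomial (Fin 1) ℂ) →+* ℂ :=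
    (Polynomial.evalRingHom (z (σ.symm 1))).comp (Polynomial.mapRingHom (MvPolynomial.eval s1))
    with hev
  have hker : Ideal.span (Set.range fun l => E2 ((E1 Q).coeff l)) ≤ RingHom.ker ev := by
    rw [Ideal.span_le]
    rintro _ ⟨l, rfl⟩
    have h := hz3 l
    rw [hs2, MvPolynomial.eval_eq_eval_mv_eval'] at h
    exact h
  have h4 := hker heJ
  rw [RingHom.mem_ker, hev] at h4
  simpa using h4

end Pool.Agent.J4H17.K1
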