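import Pool.Agent.J4H69.K1.Stm

/-!
# Project K1: `DET`
-/

set_option autoImplicit false

open MvPolynomial Filter Topology Pool.Agent.J4H69.K1
open Pool.Agent.J4H69.AX (HasPiece)

namespace Pool.Agent.J4H17.K1

theorem dd_C (g : ℂ → ℂ) (a : ℂ) (i : Fin 3) (z : Fin 3 → ℂ) :
    dd g (MvPolynomial.C a) i z = 0 := by
  simp [dd]

theorem dd_add (g : ℂ → ℂ) (p q : Pol) (i : Fin 3) (z : Fin 3 → ℂ) :
    dd g (p + q) i z = dd g p i z + dd g q i z := by
  simp only [dd, map_add]
  ring

theorem dd_mul (g : ℂ → ℂ) (p q : Pol) (i : Fin 3) (z : Fin 3 → ℂ) :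
    dd g (p * q) i z = dd g p i z * MvPolynomial.eval (env g z) q +
      MvPolynomial.eval (env g z) p * dd g q i z := by
  simp only [dd, Derivation.leibniz, smul_eq_mul, map_add, map_mul]
  ring

theorem dd_inl (g : ℂ → ℂ) (j i : Fin 3) (z : Fin 3 → ℂ) :
    dd g (MvPolynomial.X (Sum.inl j)) i z = if i = j then 1 else 0 := by
  by_cases h : i = j
  · subst h
    simp [dd, MvPolynomial.pderiv_X, Pi.single_apply]
  · simp [dd, MvPolynomial.pderiv_X, Pi.single_apply, h, Ne.symm h]

theorem dd_inr (g : ℂ → ℂ) (j i : Fin 3) (z : Fin 3 → ℂ) :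
    dd g (MvPolynomial.X (Sum.inr j)) i z = if i = j then deriv g (z i) else 0 := by
  by_cases h : i = j
  · subst h
    simp [dd, MvPolynomial.pderiv_X, Pi.single_apply]
  · simp [dd, MvPolynomial.pderiv_X, Pi.single_apply, h, Ne.symm h]

/-- the chain rule along a curve -/
theorem chain {g : ℂ → ℂ} (hg : Differentiable ℂ g) {γ : ℂ → Fin 3 → ℂ} {w : Fin 3 → ℂ}
    (hγ : HasDerivAt γ w 0) (R : Pol) :
    HasDerivAt (fun t => MvPolynomial.eval (env g (γ t)) R) (∑ i, dd g R i (γ 0) * w i) 0 := by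
  have hγi : ∀ i, HasDerivAt (fun t => γ t i) (w i) 0 := hasDerivAt_pi.1 hγ
  induction R using MvPolynomial.induction_on with
  | C a =>
    simp only [dd_C, MvPolynomial.eval_C, zero_mul, Finset.sum_const_zero]
    exact hasDerivAt_const _ _
  | add p q hp hq =>
    have := hp.add hq
    simp only [dd_add, add_mul, Finset.sum_add_distrib]
    refine this.congr_of_eventuallyEq ?_
    filter_upwards with t
    simp
  | mul_X p n hp =>
    have hX : HasDerivAt (fun t => MvPolynomial.eval (env g (γ t)) (MvPolynomial.X n))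
        (∑ i, dd g (MvPolynomial.X n) i (γ 0) * w i) 0 := by
      cases n with
      | inl j =>
        simp only [dd_inl, ite_mul, one_mul, zero_mul, Finset.sum_ite_eq', Finset.mem_univ,
          if_true, MvPolynomial.eval_X, env, Sum.elim_inl]
        exact hγi j
      | inr j =>
        simp only [dd_inr, ite_mul, zero_mul, Finset.sum_ite_eq', Finset.mem_univ,
          if_true, MvPolynomial.eval_X, env, Sum.elim_inr]
        exact (hg (γ 0 j)).hasDerivAt.comp 0 (hγi j)
    have hmul := hp.mul hX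
    have e : ∑ i, dd g (p * MvPolynomial.X n) i (γ 0) * w i =
        (∑ i, dd g p i (γ 0) * w i) * MvPolynomial.eval (env g (γ 0)) (MvPolynomial.X n) +
        MvPolynomial.eval (env g (γ 0)) p * ∑ i, dd g (MvPolynomial.X n) i (γ 0) * w i := by
      rw [Finset.sum_mul, Finset.mul_sum, ← Finset.sum_add_distrib]
      refine Finset.sum_congr rfl fun i _ => ?_
      rw [dd_mul]
      ring
    rw [e]
    refine hmul.congr_of_eventuallyEq ?_
    filter_upwards with t
    simp

theorem t_DET : S_DET := by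
  intro g hg T R hR z hz hpiece
  obtain ⟨φ, hφ, hφ0, hinj, hT⟩ := hpiece
  -- the curve
  have hL : HasDerivAt (fun t : ℂ => (fun _ => t : Fin (0 + 1) → ℂ)) (fun _ => 1) 0 := by
    rw [hasDerivAt_pi]
    intro i
    exact hasDerivAt_id 0
  have h0 : (fun _ => (0 : ℂ) : Fin (0 + 1) → ℂ) = 0 := rfl
  have hd : HasFDerivAt φ (fderiv ℂ φ 0) (fun _ => (0 : ℂ) : Fin (0 + 1) → ℂ) :=
    hφ.differentiableAt.hasFDerivAt
  have hγ : HasDerivAt (fun t : ℂ => φ (fun _ => t)) (fderiv ℂ φ 0 (fun _ => 1)) 0 :=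
    hd.comp_hasDerivAt 0 hL
  set w := fderiv ℂ φ 0 (fun _ => 1) with hw
  have hw0 : w ≠ 0 := by
    intro h
    have h1 : fderiv ℂ φ 0 (fun _ => 1) = fderiv ℂ φ 0 0 := by rw [← hw, h, map_zero]
    have h2 := hinj h1
    have h3 := congrFun h2 0
    simp at h3
  have hcont : ContinuousAt (fun t : ℂ => (fun _ => t : Fin (0 + 1) → ℂ)) 0 := hL.continuousAt
  have hev : ∀ᶠ t in 𝓝 (0 : ℂ), φ (fun _ => t) ∈ T := hcont.eventually hT
  rw [← Matrix.exists_mulVec_eq_zero_iff]
  refine ⟨w, hw0, ?_⟩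
  funext k
  have hch := chain hg hγ (R k)
  have hzero : (fun t : ℂ => MvPolynomial.eval (env g (φ (fun _ => t))) (R k)) =ᶠ[𝓝 0]
      fun _ => 0 := by
    filter_upwards [hev] with t ht
    exact hR _ ht k
  have hc : HasDerivAt (fun t : ℂ => MvPolynomial.eval (env g (φ (fun _ => t))) (R k)) 0 0 :=
    (hasDerivAt_const (0 : ℂ) (0 : ℂ)).congr_of_eventuallyEq hzero
  have hu := hch.unique hc
  have hz' : φ (fun _ => 0) = z := hφ0
  simp only [hz'] at hu
  simpa [Matrix.mulVec, dotProduct] using hu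

end Pool.Agent.J4H17.K1
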