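import Pool.Agent.J4H69.K1.Stm

/-!
# Project K1: `MIN`
-/

set_option autoImplicit false

open MvPolynomial Pool.Agent.J4H69.K1

namespace Pool.Agent.J4H17.K1

theorem pderiv_supp {S : Set (Fin 3 ⊕ Fin 3)} {v : Fin 3 ⊕ Fin 3} (hv : v ∉ S) {p : Pol}
    (hp : p ∈ MvPolynomial.supported ℂ S) : MvPolynomial.pderiv v p = 0 := by
  apply MvPolynomial.pderiv_eq_zero_of_notMem_vars
  intro h
  exact hv (MvPolynomial.mem_supported.1 hp h)

theorem pderiv_eval {S : Set (Fin 3 ⊕ Fin 3)} {v : Fin 3 ⊕ Fin 3} (hv : v ∉ S)
    (E : Polynomial Pol) (hE : ∀ l, E.coeff l ∈ MvPolynomial.supported ℂ S) :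
    MvPolynomial.pderiv v (E.eval (MvPolynomial.X v)) =
      E.derivative.eval (MvPolynomial.X v) := by
  rw [Polynomial.derivative_eval, Polynomial.sum_over_range' _ _ (E.natDegree + 1) (by omega),
    Polynomial.eval_eq_sum_range, map_sum]
  · refine Finset.sum_congr rfl fun i _ => ?_
    rw [Derivation.leibniz, pderiv_supp hv (hE i), smul_zero, add_zero, Derivation.leibniz_pow,
      MvPolynomial.pderiv_X_self]
    simp only [smul_eq_mul, nsmul_eq_mul, mul_one]
    ring
  · intro n
    simp

theorem t_MIN : S_MIN := by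
  intro I hI S v hv hex
  classical
  have hex' : ∃ n : ℕ, ∃ E : Polynomial Pol, E.natDegree = n ∧
      (∀ l, E.coeff l ∈ MvPolynomial.supported ℂ S) ∧ (∃ l, E.coeff l ∉ I) ∧
      E.eval (MvPolynomial.X v) ∈ I := by
    obtain ⟨E, h1, h2, h3⟩ := hex
    exact ⟨_, E, rfl, h1, h2, h3⟩
  obtain ⟨E, hn, h1, h2, h3⟩ := Nat.find_spec hex'
  have hmin : ∀ E' : Polynomial Pol, (∀ l, E'.coeff l ∈ MvPolynomial.supported ℂ S) →
      (∃ l, E'.coeff l ∉ I) → E'.eval (MvPolynomial.X v) ∈ I → E.natDegree ≤ E'.natDegree := by
    intro E' a1 a2 a3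
    rw [hn]
    exact Nat.find_min' hex' ⟨E', rfl, a1, a2, a3⟩
  clear hn hex hex'
  -- the degree is positive
  have hpos : E.natDegree ≠ 0 := by
    intro h0
    have hC : E = Polynomial.C (E.coeff 0) := Polynomial.eq_C_of_natDegree_eq_zero h0
    obtain ⟨l, hl⟩ := h2
    rw [hC, Polynomial.eval_C] at h3
    rcases Nat.eq_zero_or_pos l with rfl | hl0
    · exact hl h3
    · rw [Polynomial.coeff_eq_zero_of_natDegree_lt (by omega)] at hl
      exact hl I.zero_mem
  -- the leading coefficient is not in the ideal
  have hlead : E.leadingCoeff ∉ I := by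
    intro hl
    have hlt := Polynomial.eraseLead_natDegree_lt_or_eraseLead_eq_zero E
    have key := hmin E.eraseLead
      (fun l => by
        rw [Polynomial.eraseLead_coeff]
        split_ifs
        · exact Subalgebra.zero_mem _
        · exact h1 l)
      (by
        obtain ⟨l, hl'⟩ := h2
        refine ⟨l, ?_⟩
        rw [Polynomial.eraseLead_coeff, if_neg]
        · exact hl'
        · rintro rfl
          exact hl' hl)
      (by
        have h4 := Polynomial.eraseLead_add_C_mul_X_pow E
        have h5 : E.eval (MvPolynomial.X v) = E.eraseLead.eval (MvPolynomial.X v) +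
            E.leadingCoeff * MvPolynomial.X v ^ E.natDegree := by
          have h4' := congrArg (Polynomial.eval (MvPolynomial.X v : Pol)) h4
          rw [Polynomial.eval_add, Polynomial.eval_mul, Polynomial.eval_C, Polynomial.eval_pow,
            Polynomial.eval_X] at h4'
          exact h4'.symm
        have h6 : E.leadingCoeff * MvPolynomial.X v ^ E.natDegree ∈ I := I.mul_mem_right _ hl
        have h7 : E.eraseLead.eval (MvPolynomial.X v) = E.eval (MvPolynomial.X v) -
            E.leadingCoeff * MvPolynomial.X v ^ E.natDegree := by rw [h5]; ring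
        rw [h7]
        exact I.sub_mem h3 h6)
    rcases hlt with hlt | hz
    · omega
    · rw [hz, Polynomial.natDegree_zero] at key
      omega
  refine ⟨E.eval (MvPolynomial.X v), h3, ?_, ?_⟩
  · rw [Polynomial.eval_eq_sum_range]
    refine Subalgebra.sum_mem _ fun i _ => Subalgebra.mul_mem _ ?_ ?_
    · exact MvPolynomial.supported_mono (Set.subset_insert v S) (h1 i)
    · exact Subalgebra.pow_mem _ (MvPolynomial.X_mem_supported.2 (Set.mem_insert v S)) _
  · rw [pderiv_eval hv E h1]
    intro hd
    have hdeg : E.derivative.natDegree < E.natDegree := Polynomial.natDegree_derivative_lt hpos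
    have := hmin E.derivative
      (fun l => by
        rw [Polynomial.coeff_derivative]
        refine Subalgebra.mul_mem _ (h1 _) ?_
        have : ((l : Pol) + 1) = ((l + 1 : ℕ) : Pol) := by push_cast; rfl
        rw [this]
        exact natCast_mem _ _)
      (by
        obtain ⟨n, hn⟩ : ∃ n, E.natDegree = n + 1 := Nat.exists_eq_succ_of_ne_zero hpos
        refine ⟨n, ?_⟩
        rw [Polynomial.coeff_derivative]
        intro hmem
        rcases hI.mem_or_mem hmem with h | h
        · apply hlead
          rw [Polynomial.leadingCoeff, hn]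
          exact h
        · apply hI.ne_top
          rw [Ideal.eq_top_iff_one]
          have hu : ((n : Pol) + 1) = MvPolynomial.C ((n : ℂ) + 1) := by simp
          have h1' : (1 : Pol) = MvPolynomial.C ((n : ℂ) + 1)⁻¹ * ((n : Pol) + 1) := by
            rw [hu, ← map_mul, inv_mul_cancel₀, map_one]
            exact Nat.cast_add_one_ne_zero n
          rw [h1']
          exact I.mul_mem_left _ h)
      hd
    omega

end Pool.Agent.J4H17.K1
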