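import Pool.Agent.J4H69.K1.Stm

/-!
# Project K1: `TRD`
-/

set_option autoImplicit false

open MvPolynomial Pool.Agent.J4H69.K1

namespace Pool.Agent.J4H17.K1

/-- the polynomial in the first variable -/
theorem rename_cons_X {m : ℕ} (s : Fin m → Fin 3 ⊕ Fin 3) (v : Fin 3 ⊕ Fin 3) (i : Fin (m + 1)) :
    ((MvPolynomial.finSuccEquiv ℂ m (MvPolynomial.X i)).map
      (MvPolynomial.rename s : MvPolynomial (Fin m) ℂ →ₐ[ℂ] Pol).toRingHom).eval
        (MvPolynomial.X v) = MvPolynomial.X ((Fin.cons v s : Fin (m + 1) → Fin 3 ⊕ Fin 3) i) := by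
  refine Fin.cases ?_ (fun j => ?_) i
  · rw [MvPolynomial.finSuccEquiv_X_zero, Polynomial.map_X, Polynomial.eval_X, Fin.cons_zero]
  · rw [MvPolynomial.finSuccEquiv_X_succ, Polynomial.map_C, Polynomial.eval_C, Fin.cons_succ]
    exact MvPolynomial.rename_X s j

theorem rename_cons_C {m : ℕ} (s : Fin m → Fin 3 ⊕ Fin 3) (v : Fin 3 ⊕ Fin 3) (a : ℂ) :
    ((MvPolynomial.finSuccEquiv ℂ m (MvPolynomial.C a)).map
      (MvPolynomial.rename s : MvPolynomial (Fin m) ℂ →ₐ[ℂ] Pol).toRingHom).eval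
        (MvPolynomial.X v) = MvPolynomial.C a := by
  have h : MvPolynomial.finSuccEquiv ℂ m (MvPolynomial.C a) =
      Polynomial.C (MvPolynomial.C a) := (MvPolynomial.finSuccEquiv ℂ m).commutes a
  rw [h, Polynomial.map_C, Polynomial.eval_C]
  exact MvPolynomial.rename_C s a

theorem rename_cons {m : ℕ} (s : Fin m → Fin 3 ⊕ Fin 3) (v : Fin 3 ⊕ Fin 3)
    (P : MvPolynomial (Fin (m + 1)) ℂ) :
    ((MvPolynomial.finSuccEquiv ℂ m P).map
      (MvPolynomial.rename s : MvPolynomial (Fin m) ℂ →ₐ[ℂ] Pol).toRingHom).eval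
        (MvPolynomial.X v) = MvPolynomial.rename (Fin.cons v s : Fin (m + 1) → Fin 3 ⊕ Fin 3) P := by
  induction P using MvPolynomial.induction_on with
  | C a => rw [rename_cons_C, MvPolynomial.rename_C]
  | add p q hp hq =>
    rw [map_add (MvPolynomial.finSuccEquiv ℂ m) p q, Polynomial.map_add, Polynomial.eval_add, hp,
      hq, map_add (MvPolynomial.rename _) p q]
  | mul_X p i hp =>
    rw [map_mul (MvPolynomial.finSuccEquiv ℂ m) p (MvPolynomial.X i), Polynomial.map_mul,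
      Polynomial.eval_mul, hp, rename_cons_X, map_mul (MvPolynomial.rename _) p (MvPolynomial.X i),
      MvPolynomial.rename_X]

theorem t_TRD : S_TRD := by
  intro I hI m hm s hs
  classical
  set φ : MvPolynomial (Fin m) ℂ →+* Pol ⧸ I :=
    (Ideal.Quotient.mk I).comp (MvPolynomial.rename s : MvPolynomial (Fin m) ℂ →ₐ[ℂ] Pol).toRingHom
    with hφ
  let _ : Algebra (MvPolynomial (Fin m) ℂ) (Pol ⧸ I) := φ.toAlgebra
  have hdom : IsDomain (Pol ⧸ I) := Ideal.Quotient.isDomain I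
  have hmap : ∀ p : MvPolynomial (Fin m) ℂ, algebraMap (MvPolynomial (Fin m) ℂ) (Pol ⧸ I) p =
      Ideal.Quotient.mk I (MvPolynomial.rename s p) := fun p => rfl
  have heval : ∀ (E : Polynomial (MvPolynomial (Fin m) ℂ)) (U : Pol),
      Polynomial.aeval (Ideal.Quotient.mk I U) E = Ideal.Quotient.mk I
        ((E.map (MvPolynomial.rename s : MvPolynomial (Fin m) ℂ →ₐ[ℂ] Pol).toRingHom).eval U) := by
    intro E U
    rw [Polynomial.aeval_def, Polynomial.eval_map, Polynomial.hom_eval₂]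
    rfl
  have hX : ∀ v : Fin 3 ⊕ Fin 3,
      IsAlgebraic (MvPolynomial (Fin m) ℂ) (Ideal.Quotient.mk I (MvPolynomial.X v)) := by
    intro v
    have h := hm (Fin.cons v s)
    unfold Indep at h
    push Not at h
    obtain ⟨P, hP, hP0⟩ := h
    refine ⟨MvPolynomial.finSuccEquiv ℂ m P, ?_, ?_⟩
    · intro h0
      apply hP0
      exact (MvPolynomial.finSuccEquiv ℂ m).injective (by rw [h0, map_zero])
    · rw [heval, rename_cons]
      exact Ideal.Quotient.eq_zero_iff_mem.2 hP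
  have hall : ∀ U : Pol, IsAlgebraic (MvPolynomial (Fin m) ℂ) (Ideal.Quotient.mk I U) := by
    intro U
    induction U using MvPolynomial.induction_on with
    | C a =>
      have : Ideal.Quotient.mk I (MvPolynomial.C a) =
          algebraMap (MvPolynomial (Fin m) ℂ) (Pol ⧸ I) (MvPolynomial.C a) := by
        rw [hmap, MvPolynomial.rename_C]
      rw [this]
      exact isAlgebraic_algebraMap _
    | add p q hp hq =>
      rw [map_add]
      exact hp.add hq
    | mul_X p i hp =>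
      rw [map_mul]
      exact hp.mul (hX i)
  refine ⟨?_, ?_⟩
  · intro U
    obtain ⟨E, hE0, hE⟩ := hall U
    refine ⟨E, hE0, ?_⟩
    rw [heval] at hE
    exact Ideal.Quotient.eq_zero_iff_mem.1 hE
  · intro U hU
    have hU0 : Ideal.Quotient.mk I U ≠ 0 := fun h => hU (Ideal.Quotient.eq_zero_iff_mem.1 h)
    obtain ⟨A, hA0, hA⟩ := (hall U).exists_nonzero_dvd (mem_nonZeroDivisors_of_ne_zero hU0)
    obtain ⟨V, hV⟩ := hA
    obtain ⟨V', rfl⟩ := Ideal.Quotient.mk_surjective V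
    refine ⟨A, V', hA0, ?_⟩
    rw [← Ideal.Quotient.eq_zero_iff_mem, map_sub, map_mul, sub_eq_zero, ← hV]
    rfl

end Pool.Agent.J4H17.K1
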